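import Pool.Agent.Helper50.BO.St

/-! Module LD of the Beck-Fiala chain: the linear discrepancy is at most twice the hereditary
discrepancy (Lovász, Spencer, Vesztergombi). -/

namespace Pool.Agent.Helper53.BO

open scoped Classical

theorem ld_dyadic {V J : Type} [Fintype V] [Fintype J] (c : J → V → ℝ) (F : Set V) (T : ℝ)
    (h : ∀ U : Set V, U ⊆ F → ∃ e : V → ℝ, (∀ i ∈ U, |e i| = 1) ∧ (∀ i, i ∉ U → e i = 0) ∧
      ∀ j, |∑ i, c j i * e i| ≤ T) (k : ℕ) :
    ∀ w : V → ℕ, (∀ i, w i ≤ 2 ^ k) → (∀ i, i ∉ F → w i = 0 ∨ w i = 2 ^ k) →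
      ∃ χ : V → Bool, (∀ i, w i = 0 → χ i = false) ∧ (∀ i, w i = 2 ^ k → χ i = true) ∧
        ∀ j, |∑ i, c j i * ((if χ i then (1 : ℝ) else 0) - (w i : ℝ) / 2 ^ k)|
          ≤ T * (1 - 1 / 2 ^ k) := by
  induction k with
  | zero =>
    intro w hw hwF
    refine ⟨fun i => decide (w i = 1), fun i hi => by simp [hi], fun i hi => by simpa using hi,
      fun j => ?_⟩
    have h0 : ∀ i, c j i * ((if decide (w i = 1) = true then (1 : ℝ) else 0)
        - (w i : ℝ) / 2 ^ 0) = 0 := by
      intro i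
      have h1 := hw i
      rw [pow_zero] at h1
      have h2 : w i = 0 ∨ w i = 1 := by omega
      rcases h2 with h2 | h2 <;> simp [h2]
    rw [Finset.sum_eq_zero fun i _ => h0 i]
    simp
  | succ k ih =>
    intro w hw hwF
    have hU : {i | w i % 2 = 1} ⊆ F := by
      intro i hi
      by_contra hF
      have hi' : w i % 2 = 1 := hi
      rcases hwF i hF with h1 | h1
      · omega
      · rw [pow_succ] at h1; omega
    obtain ⟨e, he1, he0, heT⟩ := h _ hU
    let w' : V → ℕ := fun i => if e i = 1 then (w i + 1) / 2 else w i / 2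
    have hcase : ∀ i, (w i % 2 = 1 ∧ (e i = 1 ∨ e i = -1)) ∨ (w i % 2 = 0 ∧ e i = 0) := by
      intro i
      by_cases hi : w i % 2 = 1
      · left
        refine ⟨hi, ?_⟩
        exact eq_or_eq_neg_of_abs_eq (he1 i hi)
      · right
        exact ⟨by omega, he0 i hi⟩
    have hw' : ∀ i, (w' i : ℝ) / 2 ^ k = ((w i : ℝ) + e i) / 2 ^ (k + 1) := by
      intro i
      have hp : (2 : ℝ) ^ k ≠ 0 := by positivity
      have key : (2 : ℝ) * (w' i : ℝ) = (w i : ℝ) + e i := by
        rcases hcase i with ⟨h1, h2 | h2⟩ | ⟨h1, h2⟩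
        · have h3 : 2 * w' i = w i + 1 := by
            simp only [w', h2, if_true]; omega
          have h4 : (2 : ℝ) * (w' i : ℝ) = (w i : ℝ) + 1 := by exact_mod_cast h3
          rw [h4, h2]
        · have h3 : 2 * w' i + 1 = w i := by
            simp only [w', h2]
            rw [if_neg (by norm_num)]; omega
          have h4 : (2 : ℝ) * (w' i : ℝ) + 1 = (w i : ℝ) := by exact_mod_cast h3
          rw [h2]; linarith
        · have h3 : 2 * w' i = w i := by
            simp only [w', h2]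
            rw [if_neg (by norm_num)]; omega
          have h4 : (2 : ℝ) * (w' i : ℝ) = (w i : ℝ) := by exact_mod_cast h3
          rw [h4, h2, add_zero]
      rw [pow_succ, div_eq_div_iff hp (by positivity), ← key]
      ring
    have hle : ∀ i, w' i ≤ 2 ^ k := by
      intro i
      have h1 := hw i
      rw [pow_succ] at h1
      rcases hcase i with ⟨h2, _⟩ | ⟨h2, _⟩ <;> (simp only [w']; split_ifs <;> omega)
    have h0' : ∀ i, w i = 0 → w' i = 0 := by
      intro i hi
      have : e i = 0 := by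
        rcases hcase i with ⟨h2, _⟩ | ⟨_, h3⟩
        · omega
        · exact h3
      simp [w', this, hi]
    have h1' : ∀ i, w i = 2 ^ (k + 1) → w' i = 2 ^ k := by
      intro i hi
      have : e i = 0 := by
        rcases hcase i with ⟨h2, _⟩ | ⟨_, h3⟩
        · rw [pow_succ] at hi; omega
        · exact h3
      simp only [w', this, hi]
      rw [if_neg (by norm_num), pow_succ]
      omega
    obtain ⟨χ, hχ0, hχ1, hχT⟩ := ih w' hle (fun i hi => by
      rcases hwF i hi with h2 | h2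
      · exact Or.inl (h0' i h2)
      · exact Or.inr (h1' i h2))
    refine ⟨χ, fun i hi => hχ0 i (h0' i hi), fun i hi => hχ1 i (h1' i hi), fun j => ?_⟩
    have hsplit : ∑ i, c j i * ((if χ i then (1 : ℝ) else 0) - (w i : ℝ) / 2 ^ (k + 1))
        = ∑ i, c j i * ((if χ i then (1 : ℝ) else 0) - (w' i : ℝ) / 2 ^ k)
          + (1 / 2 ^ (k + 1)) * ∑ i, c j i * e i := by
      rw [Finset.mul_sum, ← Finset.sum_add_distrib]
      refine Finset.sum_congr rfl fun i _ => ?_
      rw [hw' i]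
      ring
    rw [hsplit]
    refine (abs_add_le _ _).trans ?_
    rw [abs_mul, abs_of_nonneg (show (0 : ℝ) ≤ 1 / 2 ^ (k + 1) by positivity)]
    have g1 := hχT j
    have g2 := mul_le_mul_of_nonneg_left (heT j) (show (0 : ℝ) ≤ 1 / 2 ^ (k + 1) by positivity)
    have g3 : (1 : ℝ) / 2 ^ k = 2 * (1 / 2 ^ (k + 1)) := by
      rw [pow_succ]; field_simp
    rw [g3] at g1
    nlinarith

theorem ld_proof : Pool.Agent.Helper50.BO.LD := by
  intro V J _ _ c F T h y hy hyF
  by_cases hJ : Nonempty J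
  swap
  · refine ⟨fun i => if y i = 1 then 1 else -1, fun i => by dsimp only; split_ifs <;> simp,
      fun i hi => ?_, fun j => absurd ⟨j⟩ hJ⟩
    rcases eq_or_eq_neg_of_abs_eq hi with h1 | h1
    · simp [h1]
    · dsimp only
      rw [h1, if_neg (by norm_num)]
  obtain ⟨j0⟩ := hJ
  have hT : 0 ≤ T := by
    obtain ⟨e, _, _, h3⟩ := h ∅ (Set.empty_subset _)
    exact (abs_nonneg _).trans (h3 j0)
  have key : ∀ k : ℕ, ∃ χ : V → Bool, (∀ i, y i = -1 → χ i = false) ∧
      (∀ i, y i = 1 → χ i = true) ∧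
      ∀ j, |∑ i, c j i * ((if χ i then (1 : ℝ) else 0) - (y i + 1) / 2)|
        ≤ T + (1 / 2) ^ k * ∑ i, |c j i| := by
    intro k
    have hp : (0 : ℝ) < 2 ^ k := by positivity
    let w : V → ℕ := fun i => ⌊2 ^ k * ((y i + 1) / 2)⌋₊
    have hx0 : ∀ i, 0 ≤ (y i + 1) / 2 := fun i => by
      have := (abs_le.1 (hy i)).1; linarith
    have hx1 : ∀ i, (y i + 1) / 2 ≤ 1 := fun i => by
      have := (abs_le.1 (hy i)).2; linarith
    have hw0 : ∀ i, y i = -1 → w i = 0 := by
      intro i hi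
      simp [w, hi]
    have hw1 : ∀ i, y i = 1 → w i = 2 ^ k := by
      intro i hi
      simp only [w, hi]
      norm_num
      have : (2 : ℝ) ^ k = ((2 ^ k : ℕ) : ℝ) := by push_cast; ring
      rw [this, Nat.floor_natCast]
    have hwle : ∀ i, w i ≤ 2 ^ k := by
      intro i
      have h1 : (w i : ℝ) ≤ 2 ^ k * ((y i + 1) / 2) :=
        Nat.floor_le (mul_nonneg hp.le (hx0 i))
      have h2 : (w i : ℝ) ≤ 2 ^ k := h1.trans (by nlinarith [hx1 i])
      exact_mod_cast h2
    obtain ⟨χ, h0, h1, hχ⟩ := ld_dyadic c F T h k w hwle (fun i hi => by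
      rcases eq_or_eq_neg_of_abs_eq (hyF i hi) with h2 | h2
      · exact Or.inr (hw1 i h2)
      · exact Or.inl (hw0 i h2))
    refine ⟨χ, fun i hi => h0 i (hw0 i hi), fun i hi => h1 i (hw1 i hi), fun j => ?_⟩
    have hsplit : ∑ i, c j i * ((if χ i then (1 : ℝ) else 0) - (y i + 1) / 2)
        = ∑ i, c j i * ((if χ i then (1 : ℝ) else 0) - (w i : ℝ) / 2 ^ k)
          + ∑ i, c j i * ((w i : ℝ) / 2 ^ k - (y i + 1) / 2) := by
      rw [← Finset.sum_add_distrib]
      exact Finset.sum_congr rfl fun i _ => by ring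
    rw [hsplit]
    refine (abs_add_le _ _).trans ?_
    have g1 : T * (1 - 1 / 2 ^ k) ≤ T := by
      have : (0 : ℝ) ≤ 1 / 2 ^ k := by positivity
      nlinarith
    have g2 : |∑ i, c j i * ((w i : ℝ) / 2 ^ k - (y i + 1) / 2)| ≤ (1 / 2) ^ k * ∑ i, |c j i| := by
      refine (Finset.abs_sum_le_sum_abs _ _).trans ?_
      rw [Finset.mul_sum]
      refine Finset.sum_le_sum fun i _ => ?_
      rw [abs_mul, mul_comm]
      apply mul_le_mul_of_nonneg_right _ (abs_nonneg _)
      have a1 : (w i : ℝ) ≤ 2 ^ k * ((y i + 1) / 2) := Nat.floor_le (mul_nonneg hp.le (hx0 i))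
      have a2 : 2 ^ k * ((y i + 1) / 2) < w i + 1 := Nat.lt_floor_add_one _
      rw [one_div, inv_pow, abs_le]
      constructor
      · rw [neg_le_sub_iff_le_add, ← sub_le_iff_le_add, le_div_iff₀ hp, sub_mul,
          inv_mul_cancel₀ hp.ne']
        linarith
      · have : (w i : ℝ) / 2 ^ k ≤ (y i + 1) / 2 := by
          rw [div_le_iff₀ hp]; linarith
        have : (0 : ℝ) ≤ (2 ^ k)⁻¹ := by positivity
        linarith
    linarith [hχ j]
  choose f hf0 hf1 hfT using key
  obtain ⟨χ, hχ⟩ := Finite.exists_infinite_fiber f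
  have hinf : (f ⁻¹' {χ}).Infinite := Set.infinite_coe_iff.1 hχ
  have hne : ∃ k, f k = χ := by
    obtain ⟨k, hk⟩ := hinf.nonempty
    exact ⟨k, hk⟩
  obtain ⟨k0, hk0⟩ := hne
  have hlim : ∀ j, |∑ i, c j i * ((if χ i then (1 : ℝ) else 0) - (y i + 1) / 2)| ≤ T := by
    intro j
    apply le_of_forall_pos_le_add
    intro ε hε
    set M := ∑ i, |c j i| with hM
    have hM0 : 0 ≤ M := Finset.sum_nonneg fun i _ => abs_nonneg _
    obtain ⟨n, hn⟩ := exists_pow_lt_of_lt_one (show 0 < ε / (M + 1) by positivity)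
      (show (1 / 2 : ℝ) < 1 by norm_num)
    obtain ⟨k, hk, hkn⟩ := hinf.exists_gt n
    have h1 := hfT k j
    have hk' : f k = χ := hk
    rw [hk'] at h1
    have h2 : (1 / 2 : ℝ) ^ k ≤ (1 / 2) ^ n :=
      pow_le_pow_of_le_one (by norm_num) (by norm_num) hkn.le
    have h3 : (1 / 2 : ℝ) ^ k * M ≤ ε := by
      calc (1 / 2 : ℝ) ^ k * M ≤ (ε / (M + 1)) * M :=
            mul_le_mul_of_nonneg_right (h2.trans hn.le) hM0
        _ ≤ (ε / (M + 1)) * (M + 1) := mul_le_mul_of_nonneg_left (by linarith) (by positivity)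
        _ = ε := by field_simp
    linarith
  refine ⟨fun i => if χ i then 1 else -1, fun i => by dsimp only; split_ifs <;> simp,
    fun i hi => ?_, fun j => ?_⟩
  · rcases eq_or_eq_neg_of_abs_eq hi with h1 | h1
    · have := hf1 k0 i h1
      rw [hk0] at this
      simp [this, h1]
    · have := hf0 k0 i h1
      rw [hk0] at this
      simp [this, h1]
  · have e : ∑ i, c j i * ((if χ i then (1 : ℝ) else -1) - y i)
        = 2 * ∑ i, c j i * ((if χ i then (1 : ℝ) else 0) - (y i + 1) / 2) := by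
      rw [Finset.mul_sum]
      refine Finset.sum_congr rfl fun i _ => ?_
      split_ifs <;> ring
    rw [e, abs_mul, abs_of_pos (by norm_num : (0 : ℝ) < 2)]
    have := hlim j
    linarith

end Pool.Agent.Helper53.BO
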