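import Pool.Agent.Helper98.BO.STst
import Pool.Agent.Helper26.Bf.Sep

/-! Module STcount of the Beck-Fiala chain: size of the clusters. -/

namespace Pool.Agent.Helper53.BO

open Pool.Agent.Helper98.BO Pool.Agent.Helper26.Bf Finset
open Pool.Agent.Helper26.Gsw (chains card_chains mem_chains cl mem_cl long_chain cl_eq)

open Classical in
/-- two relation version of `cl_le_of_no_chain` -/
theorem cl_le_two {Q : Type} [Fintype Q] {Rw Rs : Q → Q → Prop} (hRw : ∀ a b, Rw a b → Rw b a)
    (hRs : ∀ a b, Rs a b → Rs b a) (hws : ∀ a b, Rw a b → Rs a b) {dw : ℕ}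
    (hm : ∀ a, #(univ.filter (Rw a)) ≤ dw) (F : Set Q) (k : ℕ)
    (h : ∀ a, ∀ l ∈ chains (R3 Rs) (2 * k) a, k + 1 ≤ #l.toFinset → Ind Rw l.toFinset →
      ∃ u ∈ l.toFinset, u ∉ F) (a : Q) (ha : a ∈ F) :
    #(cl (fun x y => x ∈ F ∧ y ∈ F ∧ Rs x y) a) ≤ (1 + dw) * k := by
  -- maximal separated set
  set FF : Finset (Finset Q) := univ.filter fun S => (∀ b ∈ S, b ∈ F) ∧
    ∀ b ∈ S, ∀ b' ∈ S, b ≠ b' → ¬ Rw b b' with hFF
  have hFne : FF.Nonempty := ⟨∅, by simp [hFF]⟩
  obtain ⟨S, hS, hmax⟩ := Finset.exists_max_image FF Finset.card hFne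
  obtain ⟨hS1, hS2⟩ := (Finset.mem_filter.1 hS).2
  have hdom : ∀ b, b ∈ F → ∃ s ∈ S, Rr Rw s b := by
    intro b hb
    by_contra hcon
    push Not at hcon
    have hbS : b ∉ S := fun hb' => hcon b hb' (Or.inl rfl)
    have hin : insert b S ∈ FF := by
      rw [hFF, Finset.mem_filter]
      refine ⟨Finset.mem_univ _, fun x hx => ?_, fun x hx y hy hxy => ?_⟩
      · rcases Finset.mem_insert.1 hx with rfl | hx
        · exact hb
        · exact hS1 x hx
      · rcases Finset.mem_insert.1 hx with hx' | hx'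
        · rcases Finset.mem_insert.1 hy with hy' | hy'
          · exact absurd (hx'.trans hy'.symm) hxy
          · rw [hx']; exact fun hr => hcon y hy' (Or.inr (hRw _ _ hr))
        · rcases Finset.mem_insert.1 hy with hy' | hy'
          · rw [hy']; exact fun hr => hcon x hx' (Or.inr hr)
          · exact hS2 x hx' y hy' hxy
    have := hmax _ hin
    rw [Finset.card_insert_of_notMem hbS] at this
    omega
  have hRr : ∀ x y, Rr Rw x y → Rr Rs x y := fun x y h => h.imp id (hws _ _)
  set r3 : Q → Q → Prop := fun x y => x ∈ S ∧ y ∈ S ∧ R3 Rs x y with hr3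
  have hr3s : ∀ x y, r3 x y → r3 y x := fun x y h => ⟨h.2.1, h.1, h.2.2.symm hRs⟩
  obtain ⟨s0, hs0, hs0a⟩ := hdom a ha
  have hcov : ∀ x, Relation.ReflTransGen (fun x y => x ∈ F ∧ y ∈ F ∧ Rs x y) a x →
      ∃ s ∈ S, Relation.ReflTransGen r3 s0 s ∧ Rr Rw s x := by
    intro x hx
    induction hx with
    | refl => exact ⟨s0, hs0, Relation.ReflTransGen.refl, hs0a⟩
    | @tail x y _ hxy ih =>
      obtain ⟨s, hs, h1, h2⟩ := ih
      obtain ⟨s', hs', h3⟩ := hdom y hxy.2.1
      exact ⟨s', hs', h1.tail ⟨hs, hs', x, y, hRr _ _ h2, Or.inr hxy.2.2,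
        (hRr _ _ h3).symm hRs⟩, h3⟩
  have hk : #(cl r3 s0) ≤ k := by
    by_contra hcon
    push Not at hcon
    obtain ⟨l, hl1, hl2, hl3, hl4, hl5⟩ := long_chain (r := r3) hr3s s0 k hcon
    have hlS : ∀ b ∈ l, b ∈ S := by
      intro b hb
      have h1 := hl5 b hb
      rw [mem_cl] at h1
      rcases Relation.ReflTransGen.cases_tail h1 with h2 | ⟨b', _, h2⟩
      · rw [h2]; exact hs0
      · exact h2.2.1
    obtain ⟨b, l', rfl⟩ : ∃ b l', l = b :: l' := by
      cases l with
      | nil => simp at hl2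
      | cons b l' => exact ⟨b, l', rfl⟩
    have hchain : List.IsChain (R3 Rs) (b :: l') := hl1.imp (fun _ _ h => h.2.2)
    have hmem := mem_chains (R3 Rs) l' b hchain
    have hlen : l'.length = 2 * k := by simpa using hl2
    rw [hlen] at hmem
    have h3 : #(b :: l').toFinset = k + 1 := by
      rw [← hl3]
    obtain ⟨u, hu, hu'⟩ := h b (b :: l') hmem h3.ge (fun x hx y hy hxy =>
      hS2 x (hlS x (List.mem_toFinset.1 hx)) y (hlS y (List.mem_toFinset.1 hy)) hxy)
    exact hu' (hS1 u (hlS u (List.mem_toFinset.1 hu)))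
  have hsub : cl (fun x y => x ∈ F ∧ y ∈ F ∧ Rs x y) a ⊆
      (cl r3 s0).biUnion fun s => insert s (univ.filter (Rw s)) := by
    intro x hx
    rw [mem_cl] at hx
    obtain ⟨s, hs, h1, h2⟩ := hcov x hx
    rw [Finset.mem_biUnion]
    refine ⟨s, mem_cl.2 h1, ?_⟩
    rcases h2 with h2 | h2
    · rw [h2]; exact Finset.mem_insert_self _ _
    · exact Finset.mem_insert_of_mem (by simpa using h2)
  calc _ ≤ _ := Finset.card_le_card hsub
    _ ≤ ∑ s ∈ cl r3 s0, #(insert s (univ.filter (Rw s))) := Finset.card_biUnion_le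
    _ ≤ ∑ _s ∈ cl r3 s0, (1 + dw) := by
        refine Finset.sum_le_sum fun s _ => ?_
        refine (Finset.card_insert_le _ _).trans ?_
        have := hm s
        omega
    _ = #(cl r3 s0) * (1 + dw) := by simp
    _ ≤ k * (1 + dw) := Nat.mul_le_mul_right _ hk
    _ = _ := mul_comm _ _

open Classical in
theorem stcount_proof : STcount := by
  intro V _ Rw Rs dw ds k hRw hRs hws hdw hds
  have hcard : ∀ (R : V → V → Prop) (a : V), #(univ.filter (R a)) = Set.ncard {b | R a b} := by
    intro R a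
    rw [← Set.ncard_coe_finset]
    congr 1
    ext b
    simp
  have hdw' : ∀ a, #(univ.filter (Rw a)) ≤ dw := fun a => by rw [hcard]; exact hdw a
  have hds' : ∀ a, #(univ.filter (Rs a)) ≤ ds := fun a => by rw [hcard]; exact hds a
  refine ⟨((univ : Finset V).biUnion fun a => (chains (R3 Rs) (2 * k) a).image
    fun l => l.toFinset).filter fun T => k + 1 ≤ #T ∧ Ind Rw T, ?_, ?_, ?_⟩
  · calc _ ≤ _ := Finset.card_filter_le _ _
      _ ≤ ∑ a : V, #((chains (R3 Rs) (2 * k) a).image fun l => l.toFinset) :=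
          Finset.card_biUnion_le
      _ ≤ ∑ _a : V, ((1 + ds) ^ 3) ^ (2 * k) :=
          Finset.sum_le_sum fun a _ => Finset.card_image_le.trans
            (card_chains (R3 Rs) (card_R3 hds') (2 * k) a)
      _ = _ := by simp
  · intro T hT
    exact (Finset.mem_filter.1 hT).2
  · intro F hF
    set r : V → V → Prop := fun x y => x ∈ F ∧ y ∈ F ∧ Rs x y with hr
    have hrs : ∀ x y, r x y → r y x := fun x y h => ⟨h.2.1, h.1, hRs _ _ h.2.2⟩
    have hrt : ∀ x y, Relation.ReflTransGen r x y → Relation.ReflTransGen r y x := by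
      intro x y h
      induction h with
      | refl => exact Relation.ReflTransGen.refl
      | tail _ h2 ih => exact Relation.ReflTransGen.head (hrs _ _ h2) ih
    have hne : ∀ u, (cl r u).Nonempty := fun u => ⟨u, mem_cl.2 Relation.ReflTransGen.refl⟩
    let rep : Finset V → V → V := fun s d => if h : s.Nonempty then h.choose else d
    have hrep : ∀ s d, s.Nonempty → rep s d ∈ s := by
      intro s d hs
      simp only [rep, hs, dif_pos]
      exact hs.choose_spec
    have hrep2 : ∀ s d d', s.Nonempty → rep s d = rep s d' := by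
      intro s d d' hs
      simp only [rep, hs, dif_pos]
    refine ⟨fun u => rep (cl r u) u, fun u u' hu hu' huu => ?_, fun v => ?_⟩
    · have h1 : cl r u = cl r u' := cl_eq hrs ⟨hu, hu', huu⟩
      dsimp only
      rw [h1]
      exact hrep2 _ _ _ (hne u')
    · by_cases hex : ∃ u, u ∈ F ∧ rep (cl r u) u = v
      swap
      · have : {u | u ∈ F ∧ rep (cl r u) u = v} = ∅ := by
          ext u
          simp only [Set.mem_ofPred_eq, Set.mem_empty_iff_false, iff_false]
          exact fun h => hex ⟨u, h⟩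
        rw [this, Set.ncard_empty]
        exact Nat.zero_le _
      obtain ⟨u, hu, huv⟩ := hex
      have hsub : {u' | u' ∈ F ∧ rep (cl r u') u' = v} ⊆ ((cl r u : Finset V) : Set V) := by
        rintro u' ⟨hu', huv'⟩
        have h1 : Relation.ReflTransGen r u v := by
          rw [← mem_cl, ← huv]; exact hrep _ _ (hne u)
        have h2 : Relation.ReflTransGen r u' v := by
          rw [← mem_cl, ← huv']; exact hrep _ _ (hne u')
        exact_mod_cast mem_cl.2 (h1.trans (hrt _ _ h2))
      refine (Set.ncard_le_ncard hsub (Set.toFinite _)).trans ?_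
      rw [Set.ncard_coe_finset]
      refine cl_le_two hRw hRs hws hdw' F k (fun a l hl hk hI => ?_) u hu
      exact hF l.toFinset (Finset.mem_filter.2 ⟨Finset.mem_biUnion.2 ⟨a, Finset.mem_univ _,
        Finset.mem_image.2 ⟨l, hl, rfl⟩⟩, hk, hI⟩)

end Pool.Agent.Helper53.BO
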