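import Pool.Agent.Helper98.BO.STst

/-! Modules STdeg and STgreedy of the Beck-Fiala chain. -/

namespace Pool.Agent.Helper53.BO

open Pool.Agent.Helper98.BO
open scoped Classical

theorem stdeg_proof : STdeg := by
  intro V J _ _ c α B hα hB hc hr u
  rw [le_div_iff₀ (by positivity)]
  set A : Finset V := Finset.univ.filter fun v => Ad c α u v with hA
  have hcard : Set.ncard {v | Ad c α u v} = A.card := by
    rw [← Set.ncard_coe_finset]
    congr 1
    ext v
    simp [hA]
  rw [hcard]
  calc (A.card : ℝ) * α ^ 2 = ∑ _v ∈ A, α ^ 2 := by rw [Finset.sum_const, nsmul_eq_mul]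
    _ ≤ ∑ v ∈ A, ∑ j, c j u ^ 2 * c j v ^ 2 := by
        refine Finset.sum_le_sum fun v hv => ?_
        rw [hA, Finset.mem_filter] at hv
        obtain ⟨j, h1, h2⟩ := hv.2
        have h3 : α ^ 2 ≤ c j u ^ 2 * c j v ^ 2 := by nlinarith
        exact h3.trans (Finset.single_le_sum (f := fun j => c j u ^ 2 * c j v ^ 2)
          (fun j _ => by positivity) (Finset.mem_univ j))
    _ ≤ ∑ v, ∑ j, c j u ^ 2 * c j v ^ 2 :=
        Finset.sum_le_sum_of_subset_of_nonneg (Finset.subset_univ _)
          fun v _ _ => Finset.sum_nonneg fun j _ => by positivity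
    _ = ∑ j, c j u ^ 2 * ∑ v, c j v ^ 2 := by
        rw [Finset.sum_comm]
        exact Finset.sum_congr rfl fun j _ => by rw [Finset.mul_sum]
    _ ≤ ∑ j, c j u ^ 2 * B :=
        Finset.sum_le_sum fun j _ => mul_le_mul_of_nonneg_left (hr j) (sq_nonneg _)
    _ = (∑ j, c j u ^ 2) * B := by rw [Finset.sum_mul]
    _ ≤ 1 * B := mul_le_mul_of_nonneg_right (hc u) hB
    _ = B := one_mul B

theorem stgreedy_proof : STgreedy := by
  intro V _ R d w F hsymm hd hw
  induction hn : F.card using Nat.strong_induction_on generalizing F with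
  | _ n ih =>
  by_cases hF : F.Nonempty
  swap
  · rw [Finset.not_nonempty_iff_eq_empty] at hF
    subst hF
    exact ⟨∅, le_rfl, fun a ha => absurd ha (Finset.notMem_empty a), by simp⟩
  obtain ⟨v, hv, hmax⟩ := Finset.exists_max_image F w hF
  set F' : Finset V := F.filter fun u => u ≠ v ∧ ¬ R v u with hF'
  have hsub : F' ⊆ F := Finset.filter_subset _ _
  have hvF' : v ∉ F' := by simp [hF']
  have hlt : F'.card < n := by
    rw [← hn]
    exact Finset.card_lt_card ⟨hsub, fun h => hvF' (h hv)⟩
  obtain ⟨A, hAF, hA, hsum⟩ := ih F'.card hlt F' rfl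
  have hvA : v ∉ A := fun h => hvF' (hAF h)
  refine ⟨insert v A, Finset.insert_subset hv (hAF.trans hsub), ?_, ?_⟩
  · intro a ha b hb hab
    rw [Finset.mem_insert] at ha hb
    rcases ha with rfl | ha <;> rcases hb with rfl | hb
    · exact absurd rfl hab
    · have := hAF hb
      rw [hF', Finset.mem_filter] at this
      exact this.2.2
    · have := hAF ha
      rw [hF', Finset.mem_filter] at this
      exact fun h => this.2.2 (hsymm _ _ h)
    · exact hA a ha b hb hab
  · rw [Finset.sum_insert hvA]
    have h1 : ∑ u ∈ F, w u = ∑ u ∈ F', w u + ∑ u ∈ F \ F', w u := by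
      rw [add_comm]; exact (Finset.sum_sdiff hsub).symm
    have h2 : ∑ u ∈ F \ F', w u ≤ (d + 1) * w v := by
      have h3 : ((F \ F').card : ℝ) ≤ d + 1 := by
        have h4 : F \ F' ⊆ insert v (Finset.univ.filter fun b => R v b) := by
          intro u hu
          rw [Finset.mem_sdiff, hF', Finset.mem_filter] at hu
          rw [Finset.mem_insert, Finset.mem_filter]
          by_contra hcon
          push Not at hcon
          exact hu.2 ⟨hu.1, hcon.1, hcon.2 (Finset.mem_univ _)⟩
        have h5 : (Finset.univ.filter fun b => R v b).card ≤ d := by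
          refine le_trans (le_of_eq ?_) (hd v)
          rw [← Set.ncard_coe_finset]
          congr 1
          ext b
          simp
        have h6 : (F \ F').card ≤ d + 1 :=
          (Finset.card_le_card h4).trans ((Finset.card_insert_le _ _).trans (by omega))
        exact_mod_cast h6
      calc ∑ u ∈ F \ F', w u ≤ ∑ _u ∈ F \ F', w v :=
            Finset.sum_le_sum fun u hu => hmax u (Finset.mem_sdiff.1 hu).1
        _ = (F \ F').card * w v := by rw [Finset.sum_const, nsmul_eq_mul]
        _ ≤ (d + 1) * w v := mul_le_mul_of_nonneg_right h3 (hw v)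
    rw [h1, mul_add]
    linarith

end Pool.Agent.Helper53.BO
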