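import Pool.Agent.Helper50.BO.St
import Pool.Agent.Helper26.GswMain

/-! Module GS of the Beck-Fiala chain: signs with error `2 √(1 + log m)` for a real matrix with
columns of norm at most one and `m` nonzero rows (Gram-Schmidt walk of Helper26). -/

namespace Pool.Agent.Helper53.BO

open Real Pool.Agent.Helper26.Gsw
open scoped Classical RealInnerProductSpace

theorem gs_proof : Pool.Agent.Helper50.BO.GS 2 := by
  intro V J _ _ c m hm hc hcard
  -- vectors
  let v : V → EuclideanSpace ℝ J := fun i => WithLp.toLp 2 (fun j => c j i)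
  have hv : ∀ i, ‖v i‖ ≤ 1 := by
    intro i
    rw [EuclideanSpace.norm_eq]
    have h1 : ∑ j, ‖(v i) j‖ ^ 2 ≤ 1 := by
      have : ∑ j, ‖(v i) j‖ ^ 2 = ∑ j, c j i ^ 2 := by
        refine Finset.sum_congr rfl fun j _ => ?_
        simp [v]
      rw [this]; exact hc i
    calc √(∑ j, ‖(v i) j‖ ^ 2) ≤ √1 := Real.sqrt_le_sqrt h1
      _ = 1 := Real.sqrt_one
  let L : J → ℝ := fun j => 2 * ∑ i, |c j i| + 1
  let z : V → ℝ := fun _ => 0
  have hdev : ∀ (x : V → ℝ), (∀ i, |x i| ≤ 1) → ∀ j, |dev c z j x| < L j := by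
    intro x hx j
    unfold dev
    refine (Finset.abs_sum_le_sum_abs _ _).trans_lt ?_
    have h1 : ∀ i, |c j i * (x i - z i)| ≤ |c j i| := by
      intro i
      rw [abs_mul]
      have : |x i - z i| ≤ 1 := by simpa [z] using hx i
      nlinarith [abs_nonneg (c j i)]
    have h2 : ∑ i, |c j i * (x i - z i)| ≤ ∑ i, |c j i| := Finset.sum_le_sum fun i _ => h1 i
    have h3 : 0 ≤ ∑ i, |c j i| := Finset.sum_nonneg fun i _ => abs_nonneg _
    simp only [L]
    linarith
  have hz : Feas c L z z := by
    refine ⟨fun i => by simp [z], fun j => ?_⟩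
    exact (hdev z (fun i => by simp [z]) j).le
  obtain ⟨E, hE, hbd⟩ := walk_main (c := c) (L := L) (z := z) v hv hz
  -- rows
  set A : Finset J := Finset.univ.filter fun j => ∃ i, c j i ≠ 0 with hA
  have hAcard : (A.card : ℝ) ≤ m := by
    have : A.card = Set.ncard {j | ∃ i, c j i ≠ 0} := by
      rw [← Set.ncard_coe_finset]
      congr 1
      ext j
      simp [hA]
    rw [this]
    exact_mod_cast hcard
  have hm1 : (1 : ℝ) ≤ m := by exact_mod_cast hm
  set M : ℝ := 2 * m + 1 with hM
  set Lg := Real.log M with hLg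
  have hLg0 : 0 < Lg := Real.log_pos (by linarith)
  set lam : ℝ := √(2 * Lg) with hlam
  have hlam0 : 0 < lam := Real.sqrt_pos.2 (by positivity)
  have hlam2 : lam ^ 2 = 2 * Lg := Real.sq_sqrt (by positivity)
  let th : J → ℝ → EuclideanSpace ℝ J := fun j s => EuclideanSpace.single j s
  let f : (V → ℝ) → ℝ := ∑ j ∈ A, (exp (-(lam ^ 2 / 2)) / M) • (mom v (th j lam) z
    + mom v (th j (-lam)) z)
  have hnorm : ∀ j s, ‖th j s‖ ^ 2 = s ^ 2 := by
    intro j s
    simp [th]
  have hEf : E f < 1 := by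
    have h1 : E f = ∑ j ∈ A, (exp (-(lam ^ 2 / 2)) / M) * (E (mom v (th j lam) z)
        + E (mom v (th j (-lam)) z)) := by
      simp only [f, map_sum, map_smul, map_add, smul_eq_mul]
    rw [h1]
    have h2 : ∀ j, (exp (-(lam ^ 2 / 2)) / M) * (E (mom v (th j lam) z)
        + E (mom v (th j (-lam)) z)) ≤ 2 / M := by
      intro j
      have g1 := hbd (th j lam)
      have g2 := hbd (th j (-lam))
      rw [hnorm] at g1 g2
      rw [neg_sq] at g2
      have hMpos : 0 < M := by linarith
      have g3 : (exp (-(lam ^ 2 / 2)) / M) * (E (mom v (th j lam) z)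
        + E (mom v (th j (-lam)) z)) ≤ (exp (-(lam ^ 2 / 2)) / M) * (2 * exp (lam ^ 2 / 2)) :=
        mul_le_mul_of_nonneg_left (by linarith) (by positivity)
      refine g3.trans (le_of_eq ?_)
      have g4 : exp (-(lam ^ 2 / 2)) * exp (lam ^ 2 / 2) = 1 := by
        rw [← exp_add]; simp
      calc exp (-(lam ^ 2 / 2)) / M * (2 * exp (lam ^ 2 / 2))
          = 2 * (exp (-(lam ^ 2 / 2)) * exp (lam ^ 2 / 2)) / M := by ring
        _ = 2 / M := by rw [g4]; ring
    calc _ ≤ ∑ _j ∈ A, 2 / M := Finset.sum_le_sum fun j _ => h2 j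
      _ = A.card * (2 / M) := by rw [Finset.sum_const, nsmul_eq_mul]
      _ ≤ m * (2 / M) := by
          apply mul_le_mul_of_nonneg_right hAcard
          have : 0 < M := by linarith
          positivity
      _ < 1 := by
          have : 0 < M := by linarith
          rw [← mul_div_assoc, div_lt_one this, hM]
          linarith
  obtain ⟨y, hy, hfy⟩ := hE.exists_lt hEf
  obtain ⟨hyF, hyA, -⟩ := hy
  have hy1 : ∀ i, |y i| = 1 := by
    intro i
    by_contra hcon
    have h1 : |y i| < 1 := lt_of_le_of_ne (hyF.1 i) hcon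
    exact hyA i ⟨h1, fun j _ => hdev y hyF.1 j⟩
  refine ⟨y, hy1, fun j => ?_⟩
  by_cases hj : j ∈ A
  swap
  · have h0 : ∀ i, c j i = 0 := by
      intro i
      by_contra hne
      exact hj (by rw [hA, Finset.mem_filter]; exact ⟨Finset.mem_univ _, i, hne⟩)
    simp only [h0, zero_mul, Finset.sum_const_zero, abs_zero]
    positivity
  set S : ℝ := ∑ i, c j i * y i with hS
  have hin : ∀ s : ℝ, mom v (th j s) z y = exp (s * S) := by
    intro s
    unfold mom
    congr 1
    rw [inner_sum]
    simp only [inner_smul_right]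
    rw [hS, Finset.mul_sum]
    refine Finset.sum_congr rfl fun i _ => ?_
    simp only [th, EuclideanSpace.inner_single_left, v, z]
    simp
    ring
  have h3 : (exp (-(lam ^ 2 / 2)) / M) * (exp (lam * S) + exp (-lam * S)) ≤ f y := by
    have e : f y = ∑ j ∈ A, (exp (-(lam ^ 2 / 2)) / M) * (mom v (th j lam) z y
        + mom v (th j (-lam)) z y) := by
      simp [f, Finset.sum_apply, mul_add]
    rw [e, ← hin, ← hin]
    exact Finset.single_le_sum (f := fun j => (exp (-(lam ^ 2 / 2)) / M) * (mom v (th j lam) z y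
        + mom v (th j (-lam)) z y)) (fun j _ => by
          have hMpos : 0 < M := by linarith
          have a1 : 0 < mom v (th j lam) z y := exp_pos _
          have a2 : 0 < mom v (th j (-lam)) z y := exp_pos _
          positivity) hj
  have h4 : exp (lam * |S|) ≤ exp (lam * S) + exp (-lam * S) := by
    rcases abs_cases S with ⟨h, _⟩ | ⟨h, _⟩
    · rw [h]; have := exp_pos (-lam * S); linarith
    · rw [h, mul_neg, neg_mul]; have := exp_pos (lam * S); linarith
  have hMpos : 0 < M := by linarith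
  have h5 : exp (lam * |S|) ≤ M * exp (lam ^ 2 / 2) := by
    have g1 : (exp (-(lam ^ 2 / 2)) / M) * exp (lam * |S|) ≤ 1 :=
      (mul_le_mul_of_nonneg_left h4 (by positivity)).trans (h3.trans hfy.le)
    have g2 : exp (-(lam ^ 2 / 2)) * exp (lam ^ 2 / 2) = 1 := by
      rw [← exp_add]; simp
    have g3 := exp_pos (lam ^ 2 / 2)
    calc exp (lam * |S|) = (exp (-(lam ^ 2 / 2)) * exp (lam ^ 2 / 2)) * exp (lam * |S|) := by
          rw [g2, one_mul]
      _ = (M * exp (lam ^ 2 / 2)) * ((exp (-(lam ^ 2 / 2)) / M)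
          * exp (lam * |S|)) := by
          field_simp
      _ ≤ (M * exp (lam ^ 2 / 2)) * 1 := mul_le_mul_of_nonneg_left g1 (by positivity)
      _ = _ := mul_one _
  have h6 : lam * |S| ≤ Lg + lam ^ 2 / 2 := by
    have := Real.log_le_log (exp_pos _) h5
    rwa [Real.log_exp, Real.log_mul (by linarith) (exp_pos _).ne', Real.log_exp] at this
  have h7 : |S| ≤ lam := by
    have : lam * |S| ≤ lam * lam := by nlinarith
    exact le_of_mul_le_mul_left this hlam0
  refine h7.trans ?_
  have h8 : Lg ≤ 2 * (1 + Real.log m) := by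
    have g1 : M ≤ 3 * m := by rw [hM]; linarith
    have g2 : Lg ≤ Real.log (3 * m) := Real.log_le_log hMpos g1
    rw [Real.log_mul (by norm_num) (by linarith)] at g2
    have g3 : Real.log 3 ≤ 2 := by
      have := Real.log_le_sub_one_of_pos (show (0 : ℝ) < 3 by norm_num)
      linarith
    have g4 : 0 ≤ Real.log m := Real.log_nonneg hm1
    linarith
  calc lam ≤ √(2 ^ 2 * (1 + Real.log m)) := Real.sqrt_le_sqrt (by linarith)
    _ = 2 * √(1 + Real.log m) := by
      rw [Real.sqrt_mul (by norm_num), Real.sqrt_sq (by norm_num)]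

end Pool.Agent.Helper53.BO
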