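import Pool.Agent.Helper50.BO.St

/-! Module HO of the Beck-Fiala chain: random signs (Hoeffding and a union bound). -/

namespace Pool.Agent.Helper53.BO

open Real
open scoped Classical

theorem cosh_sum (I : Type) [Fintype I] (y : I → ℝ) :
    ∑ p ∈ Fintype.piFinset (fun _ : I => (Finset.univ : Finset Bool)),
      exp (∑ i, y i * (if p i then 1 else -1)) = ∏ i, (2 * cosh (y i)) := by
  have h := Finset.prod_univ_sum (fun _ : I => (Finset.univ : Finset Bool))
    (fun i b => exp (y i * (if b then 1 else -1)))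
  have h2 : ∀ i, ∑ b : Bool, exp (y i * (if b then 1 else -1)) = 2 * cosh (y i) := by
    intro i
    rw [Fintype.sum_bool, cosh_eq]
    simp only [if_true, mul_one, Bool.false_eq_true, if_false, mul_neg]
    ring
  simp only [h2] at h
  rw [h]
  exact Finset.sum_congr rfl fun p _ => by rw [exp_sum]

theorem ho_proof : Pool.Agent.Helper50.BO.HO := by
  intro I J _ _ x w hx
  by_cases hJ : Nonempty J
  swap
  · exact ⟨fun _ => 1, fun _ => by simp, fun j => absurd ⟨j⟩ hJ⟩
  obtain ⟨j0⟩ := hJ
  have hw0 : 0 ≤ w := le_trans (Finset.sum_nonneg fun i _ => sq_nonneg _) (hx j0)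
  rcases hw0.eq_or_lt with hw | hw
  · refine ⟨fun _ => 1, fun _ => by simp, fun j => ?_⟩
    have h0 : ∀ i, x j i = 0 := by
      intro i
      have h1 : x j i ^ 2 ≤ ∑ i, x j i ^ 2 :=
        Finset.single_le_sum (f := fun i => x j i ^ 2) (fun i _ => sq_nonneg _)
          (Finset.mem_univ i)
      have h2 := hx j
      have h3 : x j i ^ 2 = 0 := le_antisymm (by linarith) (sq_nonneg _)
      exact pow_eq_zero_iff two_ne_zero |>.1 h3
    simp [h0]
  set m : ℝ := 2 * Fintype.card J + 2 with hm
  have hcard : (0 : ℝ) ≤ Fintype.card J := Nat.cast_nonneg _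
  have hm2 : 2 ≤ m := by rw [hm]; linarith
  set Lg := Real.log m with hLg
  have hLg0 : 0 < Lg := Real.log_pos (by linarith)
  set lam : ℝ := √(2 * Lg / w) with hlam
  have hlam0 : 0 < lam := Real.sqrt_pos.2 (by positivity)
  have hlam2 : lam ^ 2 = 2 * Lg / w := Real.sq_sqrt (by positivity)
  -- the potential
  let Q : (I → Bool) → ℝ := fun p => ∑ j, (exp (∑ i, (lam * x j i) * (if p i then 1 else -1))
    + exp (∑ i, (-(lam * x j i)) * (if p i then 1 else -1)))
  set P := Fintype.piFinset (fun _ : I => (Finset.univ : Finset Bool)) with hP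
  have hbd : ∀ j, ∏ i, (2 * cosh (lam * x j i)) ≤ 2 ^ Fintype.card I * exp (lam ^ 2 * w / 2) := by
    intro j
    rw [Finset.prod_mul_distrib, Finset.prod_const, Finset.card_univ]
    refine mul_le_mul_of_nonneg_left ?_ (by positivity)
    calc ∏ i, cosh (lam * x j i) ≤ ∏ i, exp ((lam * x j i) ^ 2 / 2) :=
          Finset.prod_le_prod (fun i _ => (cosh_pos _).le) fun i _ => cosh_le_exp_half_sq _
      _ = exp (∑ i, (lam * x j i) ^ 2 / 2) := by rw [exp_sum]
      _ ≤ exp (lam ^ 2 * w / 2) := by
          apply exp_le_exp.2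
          have : ∑ i, (lam * x j i) ^ 2 / 2 = lam ^ 2 / 2 * ∑ i, x j i ^ 2 := by
            rw [Finset.mul_sum]
            exact Finset.sum_congr rfl fun i _ => by ring
          rw [this]
          have := mul_le_mul_of_nonneg_left (hx j) (show 0 ≤ lam ^ 2 / 2 by positivity)
          linarith
  have hsum : ∑ p ∈ P, Q p ≤ ∑ p ∈ P, (2 * Fintype.card J) * exp (lam ^ 2 * w / 2) := by
    have hcardP : (P.card : ℝ) = 2 ^ Fintype.card I := by
      rw [hP, Fintype.card_piFinset]
      simp
    have h1 : ∑ p ∈ P, Q p = ∑ j, (∏ i, (2 * cosh (lam * x j i))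
        + ∏ i, (2 * cosh (lam * x j i))) := by
      simp only [Q]
      rw [Finset.sum_comm]
      refine Finset.sum_congr rfl fun j _ => ?_
      rw [Finset.sum_add_distrib, cosh_sum, cosh_sum]
      simp only [cosh_neg]
    rw [h1, Finset.sum_const, nsmul_eq_mul, hcardP]
    calc ∑ j, (∏ i, (2 * cosh (lam * x j i)) + ∏ i, (2 * cosh (lam * x j i)))
        ≤ ∑ _j : J, (2 ^ Fintype.card I * exp (lam ^ 2 * w / 2)
          + 2 ^ Fintype.card I * exp (lam ^ 2 * w / 2)) :=
          Finset.sum_le_sum fun j _ => add_le_add (hbd j) (hbd j)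
      _ = _ := by
          rw [Finset.sum_const, Finset.card_univ, nsmul_eq_mul]
          ring
  have hne : P.Nonempty := ⟨fun _ => true, by rw [hP]; simp⟩
  obtain ⟨p, -, hp⟩ := Finset.exists_le_of_sum_le hne hsum
  refine ⟨fun i => if p i then 1 else -1, fun i => ?_, fun j => ?_⟩
  · dsimp only
    split_ifs <;> simp
  · set S : ℝ := ∑ i, x j i * (if p i then 1 else -1) with hS
    have h1 : exp (∑ i, (lam * x j i) * (if p i then 1 else -1)) = exp (lam * S) := by
      rw [hS, Finset.mul_sum]
      congr 1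
      exact Finset.sum_congr rfl fun i _ => by ring
    have h2 : exp (∑ i, (-(lam * x j i)) * (if p i then 1 else -1)) = exp (-(lam * S)) := by
      rw [hS, Finset.mul_sum, ← Finset.sum_neg_distrib]
      congr 1
      exact Finset.sum_congr rfl fun i _ => by ring
    have h3 : exp (lam * S) + exp (-(lam * S)) ≤ Q p := by
      rw [← h1, ← h2]
      exact Finset.single_le_sum (f := fun j => exp (∑ i, (lam * x j i) * (if p i then 1 else -1))
        + exp (∑ i, (-(lam * x j i)) * (if p i then 1 else -1)))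
        (fun j _ => by positivity) (Finset.mem_univ j)
    have h4 : exp (lam * |S|) ≤ exp (lam * S) + exp (-(lam * S)) := by
      rcases abs_cases S with ⟨h, _⟩ | ⟨h, _⟩
      · rw [h]; have := exp_pos (-(lam * S)); linarith
      · rw [h, mul_neg]; have := exp_pos (lam * S); linarith
    have h5 : exp (lam * |S|) ≤ m * exp (lam ^ 2 * w / 2) := by
      refine (h4.trans (h3.trans hp)).trans ?_
      apply mul_le_mul_of_nonneg_right _ (exp_pos _).le
      rw [hm]; linarith
    have h6 : lam * |S| ≤ Lg + lam ^ 2 * w / 2 := by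
      have := Real.log_le_log (exp_pos _) h5
      rwa [Real.log_exp, Real.log_mul (by linarith) (exp_pos _).ne', Real.log_exp] at this
    have h7 : lam ^ 2 * w / 2 = Lg := by
      rw [hlam2]; field_simp
    rw [h7] at h6
    -- sqrt (2 w L) = lam w
    have h8 : √(2 * w * Lg) = lam * w := by
      rw [show 2 * w * Lg = (lam * w) ^ 2 by rw [mul_pow, hlam2]; field_simp]
      exact Real.sqrt_sq (by positivity)
    rw [h8]
    have h9 : Lg = lam ^ 2 * w / 2 := h7.symm
    rw [h9] at h6
    have : lam * |S| ≤ lam * (lam * w) := by nlinarith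
    exact le_of_mul_le_mul_left this hlam0

end Pool.Agent.Helper53.BO
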