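import Pool.Agent.Helper53.BO.LD
import Pool.Agent.Helper53.BO.GS
import Pool.Agent.Helper53.BO.HO

/-! Module FL of the Beck-Fiala chain: completion of the small clusters. -/

namespace Pool.Agent.Helper53.BO

open scoped Classical

theorem fl_proof : Pool.Agent.Helper50.BO.FL 6 := by
  intro V J _ _ c y g al om N nc hal hal1 hom hnc hN hc hy hcl hbig hsmall hpar
  have hnc1 : (1 : ℝ) ≤ nc := by exact_mod_cast hnc
  have hq1 : 1 ≤ (nc : ℝ) / al := by
    rw [le_div_iff₀ hal]; linarith
  have hlog : 0 ≤ Real.log (nc / al) := Real.log_nonneg hq1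
  set R : ℝ := √(1 + Real.log (nc / al)) with hR
  have hR1 : 1 ≤ R := by
    rw [hR]; exact Real.one_le_sqrt.2 (by linarith)
  have main : ∀ U : Set V, U ⊆ {i | |y i| < 1} → ∃ e : V → ℝ, (∀ i ∈ U, |e i| = 1) ∧
      (∀ i, i ∉ U → e i = 0) ∧ ∀ j, |∑ i, c j i * e i| ≤ 3 * R := by
    intro U hU
    set UF : Finset V := Finset.univ.filter fun u => u ∈ U with hUF
    let K : V → Finset V := fun v => UF.filter fun u => g u = v
    have hKU : ∀ v u, u ∈ K v → u ∈ U ∧ g u = v := by
      intro v u hu
      simpa [K, hUF] using hu
    have hfib : ∀ f : V → ℝ, ∑ v, ∑ u ∈ K v, f u = ∑ u ∈ UF, f u := by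
      intro f
      rw [← Finset.sum_fiberwise UF g f]
    have hKc : ∀ v, (K v).card ≤ nc := by
      intro v
      refine le_trans ?_ (hcl v)
      rw [← Set.ncard_coe_finset]
      apply Set.ncard_le_ncard _ (Set.toFinite _)
      intro u hu
      have := hKU v u (by exact_mod_cast hu)
      exact ⟨hU this.1, this.2⟩
    let Big : J → V → Prop := fun j v => ∃ u ∈ K v, al < c j u ^ 2
    let cv : V → J → V → ℝ := fun v j u => if u ∈ K v ∧ Big j v then c j u else 0
    set m : ℕ := ⌊(nc : ℝ) / al⌋₊ with hm
    have hm1 : 1 ≤ m := Nat.le_floor (by simpa using hq1)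
    have hmle : (m : ℝ) ≤ nc / al := Nat.floor_le (by linarith)
    have hcvc : ∀ v i, ∑ j, cv v j i ^ 2 ≤ 1 := by
      intro v i
      refine le_trans (Finset.sum_le_sum fun j _ => ?_) (hc i)
      simp only [cv]
      split_ifs
      · exact le_rfl
      · rw [zero_pow two_ne_zero]; exact sq_nonneg _
    have hrows : ∀ v, Set.ncard {j | ∃ i, cv v j i ≠ 0} ≤ m := by
      intro v
      set B : Finset J := Finset.univ.filter fun j => Big j v with hB
      have h1 : Set.ncard {j | ∃ i, cv v j i ≠ 0} ≤ B.card := by
        rw [← Set.ncard_coe_finset]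
        apply Set.ncard_le_ncard _ (Set.toFinite _)
        rintro j ⟨i, hi⟩
        simp only [cv] at hi
        split_ifs at hi with h2
        · simp [hB, h2.2]
        · exact absurd rfl hi
      refine h1.trans (Nat.le_floor ?_)
      rw [le_div_iff₀ hal]
      calc (B.card : ℝ) * al = ∑ _j ∈ B, al := by rw [Finset.sum_const, nsmul_eq_mul]
        _ ≤ ∑ j ∈ B, ∑ u ∈ K v, c j u ^ 2 := by
            refine Finset.sum_le_sum fun j hj => ?_
            rw [hB, Finset.mem_filter] at hj
            obtain ⟨u, hu, hlt⟩ := hj.2
            exact hlt.le.trans (Finset.single_le_sum (f := fun u => c j u ^ 2)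
              (fun u _ => sq_nonneg _) hu)
        _ = ∑ u ∈ K v, ∑ j ∈ B, c j u ^ 2 := Finset.sum_comm
        _ ≤ ∑ _u ∈ K v, (1 : ℝ) := by
            refine Finset.sum_le_sum fun u _ => ?_
            refine le_trans ?_ (hc u)
            exact Finset.sum_le_sum_of_subset_of_nonneg (Finset.subset_univ _)
              fun j _ _ => sq_nonneg _
        _ = (K v).card := by simp
        _ ≤ nc := by exact_mod_cast hKc v
    have hGS := fun v => gs_proof V J (cv v) m hm1 (hcvc v) (hrows v)
    choose ev hev1 hevb using hGS
    have hevb' : ∀ v j, |∑ i, cv v j i * ev v i| ≤ 2 * R := by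
      intro v j
      refine (hevb v j).trans ?_
      apply mul_le_mul_of_nonneg_left _ (by norm_num)
      rw [hR]
      apply Real.sqrt_le_sqrt
      have : Real.log m ≤ Real.log (nc / al) :=
        Real.log_le_log (by exact_mod_cast hm1) hmle
      linarith
    -- the small parts
    let x : J → V → ℝ := fun j v => if Big j v then 0 else ∑ u ∈ K v, c j u * ev v u
    have hx : ∀ j, ∑ v, x j v ^ 2 ≤ nc * om := by
      intro j
      have h1 : ∀ v, x j v ^ 2
          ≤ nc * ∑ u ∈ K v, (if |y u| < 1 ∧ c j u ^ 2 ≤ al then c j u ^ 2 else 0) := by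
        intro v
        by_cases hb : Big j v
        · simp only [x, hb, if_true]
          rw [zero_pow two_ne_zero]
          apply mul_nonneg (by positivity)
          exact Finset.sum_nonneg fun u _ => by split_ifs <;> positivity
        · simp only [x, hb, if_false]
          refine (sq_sum_le_card_mul_sum_sq).trans ?_
          have h2 : ∑ u ∈ K v, (c j u * ev v u) ^ 2 = ∑ u ∈ K v,
              (if |y u| < 1 ∧ c j u ^ 2 ≤ al then c j u ^ 2 else 0) := by
            refine Finset.sum_congr rfl fun u hu => ?_
            have hu' : u ∈ K v := hu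
            have h3 : |y u| < 1 := hU (hKU v u hu').1
            have h4 : c j u ^ 2 ≤ al := by
              by_contra hcon
              exact hb ⟨u, hu', not_le.1 hcon⟩
            rw [if_pos ⟨h3, h4⟩, mul_pow, ← sq_abs (ev v u), hev1 v u]
            ring
          rw [h2]
          apply mul_le_mul_of_nonneg_right
          · exact_mod_cast hKc v
          · exact Finset.sum_nonneg fun u _ => by split_ifs <;> positivity
      calc ∑ v, x j v ^ 2 ≤ ∑ v, nc * ∑ u ∈ K v,
            (if |y u| < 1 ∧ c j u ^ 2 ≤ al then c j u ^ 2 else 0) :=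
            Finset.sum_le_sum fun v _ => h1 v
        _ = nc * ∑ u ∈ UF, (if |y u| < 1 ∧ c j u ^ 2 ≤ al then c j u ^ 2 else 0) := by
            rw [← Finset.mul_sum, hfib]
        _ ≤ nc * om := by
            apply mul_le_mul_of_nonneg_left _ (by positivity)
            refine le_trans ?_ (hsmall j)
            exact Finset.sum_le_sum_of_subset_of_nonneg (Finset.subset_univ _)
              fun u _ _ => by split_ifs <;> positivity
    obtain ⟨s, hs1, hsb⟩ := ho_proof V J x (nc * om) hx
    have hsb' : ∀ j, |∑ v, x j v * s v| ≤ 1 := by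
      intro j
      refine (hsb j).trans ?_
      rw [Real.sqrt_le_one]
      have hcV : (0 : ℝ) ≤ Fintype.card V := Nat.cast_nonneg _
      have hcJ : (0 : ℝ) ≤ Fintype.card J := Nat.cast_nonneg _
      have h1 : Real.log (2 * Fintype.card J + 2) ≤ Real.log (8 * N) :=
        Real.log_le_log (by linarith) (by linarith)
      have h2 : 0 ≤ (nc : ℝ) * om := by positivity
      have h3 : 0 ≤ Real.log (8 * N) := Real.log_nonneg (by linarith)
      have h4 : 2 * (nc * om) * Real.log (2 * Fintype.card J + 2)
          ≤ 2 * (nc * om) * Real.log (8 * N) :=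
        mul_le_mul_of_nonneg_left h1 (by positivity)
      nlinarith [mul_nonneg h2 h3]
    refine ⟨fun i => if i ∈ U then s (g i) * ev (g i) i else 0, fun i hi => ?_, fun i hi => ?_,
      fun j => ?_⟩
    · simp only [hi, if_true]
      rw [abs_mul, hs1, hev1, one_mul]
    · simp only [hi, if_false]
    · have h1 : ∑ i, c j i * (if i ∈ U then s (g i) * ev (g i) i else 0)
          = ∑ v, ∑ u ∈ K v, c j u * (s v * ev v u) := by
        have h2 : ∑ i, c j i * (if i ∈ U then s (g i) * ev (g i) i else 0)
            = ∑ i ∈ UF, c j i * (s (g i) * ev (g i) i) := by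
          rw [hUF, Finset.sum_filter]
          refine Finset.sum_congr rfl fun i _ => ?_
          split_ifs <;> simp
        rw [h2, ← hfib]
        refine Finset.sum_congr rfl fun v _ => Finset.sum_congr rfl fun u hu => ?_
        have : g u = v := (hKU v u hu).2
        rw [this]
      have h3 : ∑ v, ∑ u ∈ K v, c j u * (s v * ev v u)
          = ∑ v, x j v * s v + ∑ v, (if Big j v then s v * ∑ i, cv v j i * ev v i else 0) := by
        rw [← Finset.sum_add_distrib]
        refine Finset.sum_congr rfl fun v _ => ?_
        have h4 : ∑ u ∈ K v, c j u * (s v * ev v u) = s v * ∑ u ∈ K v, c j u * ev v u := by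
          rw [Finset.mul_sum]
          exact Finset.sum_congr rfl fun u _ => by ring
        rw [h4]
        by_cases hb : Big j v
        · have h5 : ∑ i, cv v j i * ev v i = ∑ u ∈ K v, c j u * ev v u := by
            rw [← Finset.sum_filter_add_sum_filter_not Finset.univ (fun i => i ∈ K v)]
            have h6 : ∑ i ∈ Finset.univ.filter (fun i => ¬ i ∈ K v), cv v j i * ev v i = 0 :=
              Finset.sum_eq_zero fun i hi => by
                rw [Finset.mem_filter] at hi
                simp [cv, hi.2]
            rw [h6, add_zero, Finset.filter_mem_eq_inter, Finset.univ_inter]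
            refine Finset.sum_congr rfl fun i hi => ?_
            simp only [cv]
            rw [if_pos ⟨hi, hb⟩]
          simp only [x, hb, if_true, h5]
          ring
        · simp only [x, hb, if_false]
          ring
      rw [h1, h3]
      refine (abs_add_le _ _).trans ?_
      have h7 : |∑ v, (if Big j v then s v * ∑ i, cv v j i * ev v i else 0)| ≤ 2 * R := by
        by_cases hex : ∃ v, Big j v
        · obtain ⟨v0, hv0⟩ := hex
          rw [Finset.sum_eq_single v0]
          · rw [if_pos hv0, abs_mul, hs1, one_mul]
            exact hevb' v0 j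
          · intro v _ hne
            rw [if_neg]
            rintro ⟨u, hu, hlt⟩
            obtain ⟨u0, hu0, hlt0⟩ := hv0
            apply hne
            have a1 := hKU v u hu
            have a0 := hKU v0 u0 hu0
            have := hbig j u u0 (hU a1.1) (hU a0.1) hlt hlt0
            rw [← a1.2, ← a0.2, this]
          · intro h; exact absurd (Finset.mem_univ _) h
        · push Not at hex
          rw [Finset.sum_eq_zero fun v _ => if_neg (hex v), abs_zero]
          linarith
      linarith [hsb' j]
  obtain ⟨χ, h1, h2, h3⟩ := ld_proof V J c {i | |y i| < 1} (3 * R) main y hy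
    (fun i hi => le_antisymm (hy i) (not_lt.1 hi))
  exact ⟨χ, h1, h2, fun j => (h3 j).trans (by linarith)⟩

end Pool.Agent.Helper53.BO
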