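import Pool.Agent.Helper81.BO.Tr
import Pool.Agent.Helper50.BO.St

/-!
# The determinant lemmas S2a, S2b, S2c
-/

set_option autoImplicit false

namespace Pool.Agent.Helper53.BO

open Matrix Pool.Agent.Helper50.BO Helper81.BO

variable {V J : Type} [Fintype J] [DecidableEq J]

theorem gm_insert [DecidableEq V] (a : V → J → ℝ) (U : Finset V) (v : V) (hv : v ∉ U) :
    Gm a (insert v U) = Gm a U + (1 : ℝ) • oo (a v) := by
  unfold Gm oo
  rw [Finset.sum_insert hv, one_smul, add_comm]

theorem pd_diag (lam : J → ℝ) (h : ∀ j, 0 < lam j) : (Matrix.diagonal lam).PosDef :=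
  Matrix.PosDef.diagonal h

theorem pd_gm (a : V → J → ℝ) (lam : J → ℝ) (h : ∀ j, 0 < lam j) (U : Finset V) :
    (Matrix.diagonal lam + Gm a U).PosDef := by
  classical
  induction U using Finset.induction_on with
  | empty => simpa [Gm] using pd_diag lam h
  | insert v U hv ih =>
    rw [gm_insert a U v hv, ← add_assoc]
    exact pd_add ih (a v) 1 zero_le_one

theorem lv_nonneg {M : Matrix J J ℝ} (hM : M.PosDef) (a : J → ℝ) : 0 ≤ lv M a := by
  have h := hM.inv.posSemidef.dotProduct_mulVec_nonneg a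
  simpa [lv] using h

theorem det_oo {M : Matrix J J ℝ} (hM : M.PosDef) (a : J → ℝ) :
    (M + (1 : ℝ) • oo a).det = M.det * (1 + lv M a) := by
  have h := det_add_replicateCol_mul_replicateRow (ι := Unit) (A := M)
    (IsUnit.mk0 _ hM.det_pos.ne') a a
  have h1 : replicateCol Unit a * replicateRow Unit a = (1 : ℝ) • oo a := by
    rw [one_smul]
    ext i j
    simp [oo, Matrix.vecMulVec_apply, Matrix.mul_apply]
  rw [h1] at h
  rw [h]
  congr 1
  rw [det_unique]
  simp only [Matrix.add_apply, Matrix.one_apply_eq]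
  congr 1
  rw [Matrix.mul_assoc]
  unfold lv
  simp [Matrix.mul_apply, dotProduct, Matrix.mulVec]

theorem s2b_proof : S2b := by
  intro V J _ _ _ a lam U v hlam hv
  have hM := pd_gm a lam hlam U
  unfold FF
  rw [gm_insert a U v hv, ← add_assoc, det_oo hM,
    Real.log_mul hM.det_pos.ne' (by have := lv_nonneg hM (a v); positivity)]
  ring

theorem quad_gm (a : V → J → ℝ) (U : Finset V) (x : J → ℝ) :
    x ⬝ᵥ (Gm a U *ᵥ x) = ∑ v ∈ U, (a v ⬝ᵥ x) ^ 2 := by
  unfold Gm
  rw [Matrix.sum_mulVec, dotProduct_sum]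
  refine Finset.sum_congr rfl fun v _ => ?_
  exact quad_oo (a v) x

theorem lv_anti {M M' : Matrix J J ℝ} (hM : M.PosDef) (hM' : M'.PosDef)
    (h : ∀ x : J → ℝ, x ⬝ᵥ (M *ᵥ x) ≤ x ⬝ᵥ (M' *ᵥ x)) (a : J → ℝ) : lv M' a ≤ lv M a := by
  have h1 := cs_inv hM a (M'⁻¹ *ᵥ a)
  have h2 := h (M'⁻¹ *ᵥ a)
  have h3 : (M'⁻¹ *ᵥ a) ⬝ᵥ (M' *ᵥ (M'⁻¹ *ᵥ a)) = lv M' a := by
    rw [Matrix.mulVec_mulVec, mul_inv_pd hM', Matrix.one_mulVec, dotProduct_comm]
    rfl
  rw [h3] at h2
  have h4 := lv_nonneg hM' a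
  have h5 := lv_nonneg hM a
  have h6 : a ⬝ᵥ (M'⁻¹ *ᵥ a) = lv M' a := rfl
  have h7 : a ⬝ᵥ (M⁻¹ *ᵥ a) = lv M a := rfl
  rw [h6, h7] at h1
  have h8 := mul_le_mul_of_nonneg_left h2 h5
  rcases h4.eq_or_lt with h0 | h0
  · rw [← h0]; exact h5
  · by_contra hc
    push Not at hc
    have := mul_lt_mul_of_pos_right hc h0
    nlinarith

theorem lv_ridge (a : V → J → ℝ) (lam lam' : J → ℝ) (h' : ∀ j, 0 < lam' j)
    (h : ∀ j, lam' j ≤ lam j) (U : Finset V) (b : J → ℝ) :
    lv (Matrix.diagonal lam + Gm a U) b ≤ lv (Matrix.diagonal lam' + Gm a U) b := by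
  have h0 : ∀ j, 0 < lam j := fun j => (h' j).trans_le (h j)
  refine lv_anti (pd_gm a lam' h' U) (pd_gm a lam h0 U) (fun x => ?_) b
  rw [Matrix.add_mulVec, Matrix.add_mulVec, dotProduct_add, dotProduct_add]
  refine add_le_add ?_ le_rfl
  simp only [dotProduct, Matrix.mulVec_diagonal]
  refine Finset.sum_le_sum fun j _ => ?_
  nlinarith [mul_le_mul_of_nonneg_right (h j) (mul_self_nonneg (x j))]

theorem ff_empty (a : V → J → ℝ) (lam : J → ℝ) (h : ∀ j, 0 < lam j) : FF a lam ∅ = 0 := by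
  unfold FF Gm
  rw [Finset.sum_empty, add_zero, Matrix.det_diagonal, Real.log_prod fun j _ => (h j).ne', sub_self]

theorem ff_ridge [DecidableEq V] (a : V → J → ℝ) (lam lam' : J → ℝ) (h' : ∀ j, 0 < lam' j)
    (h : ∀ j, lam' j ≤ lam j) (U : Finset V) : FF a lam U ≤ FF a lam' U := by
  have h0 : ∀ j, 0 < lam j := fun j => (h' j).trans_le (h j)
  induction U using Finset.induction_on with
  | empty => rw [ff_empty a lam h0, ff_empty a lam' h']
  | insert v U hv ih =>
    rw [s2b_proof V J a lam U v h0 hv, s2b_proof V J a lam' U v h' hv]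
    refine add_le_add ih ?_
    refine Real.log_le_log ?_ ?_
    · have := lv_nonneg (pd_gm a lam h0 U) (a v)
      positivity
    · have := lv_ridge a lam lam' h' h U (a v)
      linarith

theorem ff_mono [DecidableEq V] (a : V → J → ℝ) (lam : J → ℝ) (h : ∀ j, 0 < lam j)
    (U U' : Finset V) (hU : U ⊆ U') : FF a lam U ≤ FF a lam U' := by
  have key : ∀ W : Finset V, FF a lam U ≤ FF a lam (U ∪ W) := by
    intro W
    induction W using Finset.induction_on with
    | empty => rw [Finset.union_empty]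
    | insert v W hv ih =>
      rw [Finset.union_insert]
      by_cases hm : v ∈ U ∪ W
      · rw [Finset.insert_eq_of_mem hm]; exact ih
      · rw [s2b_proof V J a lam _ v h hm]
        have h1 : 0 ≤ Real.log (1 + lv (Matrix.diagonal lam + Gm a (U ∪ W)) (a v)) := by
          refine Real.log_nonneg ?_
          have := lv_nonneg (pd_gm a lam h (U ∪ W)) (a v)
          linarith
        linarith
  have := key U'
  rwa [Finset.union_eq_right.mpr hU] at this

theorem s2a_proof : S2a := by
  intro V J _ _ _ a lam lam' U U' h' h hU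
  exact (ff_ridge a lam lam' h' h U).trans (ff_mono a lam' h' U U' hU)

/-- Hadamard, unit diagonal -/
theorem had_unit (M : Matrix J J ℝ) (hM : M.PosDef) (h1 : ∀ j, M j j = 1) :
    Real.log M.det ≤ 0 := by
  rw [hM.isHermitian.det_eq_prod_eigenvalues]
  have hpos := hM.eigenvalues_pos
  have htr := hM.isHermitian.trace_eq_sum_eigenvalues
  simp only [RCLike.ofReal_real_eq_id, id_eq] at htr ⊢
  rw [Real.log_prod fun j _ => (hpos j).ne']
  have h2 : M.trace = Fintype.card J := by
    unfold Matrix.trace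
    simp [h1]
  calc ∑ i, Real.log (hM.isHermitian.eigenvalues i)
      ≤ ∑ i, (hM.isHermitian.eigenvalues i - 1) :=
        Finset.sum_le_sum fun i _ => Real.log_le_sub_one_of_pos (hpos i)
    _ = 0 := by
        rw [Finset.sum_sub_distrib, ← htr, h2]
        simp

theorem hadamard (M : Matrix J J ℝ) (hM : M.PosDef) :
    Real.log M.det ≤ ∑ j, Real.log (M j j) := by
  have hd : ∀ j, 0 < M j j := fun j => hM.diag_pos
  set D : Matrix J J ℝ := Matrix.diagonal fun j => (√(M j j))⁻¹ with hD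
  have hs : ∀ j, 0 < √(M j j) := fun j => Real.sqrt_pos.mpr (hd j)
  have hN : (D * M * D).PosDef := by
    have hu : IsUnit D := by
      rw [Matrix.isUnit_iff_isUnit_det, hD, Matrix.det_diagonal]
      exact IsUnit.mk0 _ (Finset.prod_ne_zero_iff.mpr fun j _ => (inv_pos.mpr (hs j)).ne')
    have hDt : Dᴴ = D := by
      rw [hD, Matrix.diagonal_conjTranspose]
      congr 1
    have := hM.conjTranspose_mul_mul_same (B := D) (Matrix.mulVec_injective_of_isUnit hu)
    rwa [hDt] at this
  have h1 : ∀ j, (D * M * D) j j = 1 := by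
    intro j
    rw [hD, Matrix.mul_diagonal, Matrix.diagonal_mul]
    have := Real.sq_sqrt (hd j).le
    field_simp
    rw [this, div_self (hd j).ne']
  have h2 := had_unit _ hN h1
  have hdet : D.det ≠ 0 := by
    rw [hD, Matrix.det_diagonal]
    exact Finset.prod_ne_zero_iff.mpr fun j _ => (inv_pos.mpr (hs j)).ne'
  rw [Matrix.det_mul, Matrix.det_mul, Real.log_mul (mul_ne_zero hdet hM.det_pos.ne') hdet,
    Real.log_mul hdet hM.det_pos.ne'] at h2
  have h3 : Real.log D.det = - ∑ j, Real.log (M j j) / 2 := by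
    rw [hD, Matrix.det_diagonal, Real.log_prod fun j _ => (inv_pos.mpr (hs j)).ne',
      ← Finset.sum_neg_distrib]
    refine Finset.sum_congr rfl fun j _ => ?_
    rw [Real.log_inv, Real.log_sqrt (hd j).le]
  rw [h3, ← Finset.sum_div] at h2
  linarith

theorem s2c_proof : S2c := by
  intro V J _ _ a lam U hlam
  have h := hadamard _ (pd_gm a lam hlam U)
  unfold FF
  have h2 : ∀ j, Real.log ((Matrix.diagonal lam + Gm a U) j j) =
      Real.log (lam j) + Real.log (1 + (∑ v ∈ U, a v j ^ 2) / lam j) := by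
    intro j
    have h3 : (Matrix.diagonal lam + Gm a U) j j = lam j * (1 + (∑ v ∈ U, a v j ^ 2) / lam j) := by
      rw [Matrix.add_apply, Matrix.diagonal_apply_eq]
      unfold Gm
      rw [Matrix.sum_apply]
      have := hlam j
      simp only [Matrix.vecMulVec_apply, ← sq]
      field_simp
    rw [h3, Real.log_mul (hlam j).ne']
    have : 0 ≤ (∑ v ∈ U, a v j ^ 2) / lam j :=
      div_nonneg (Finset.sum_nonneg fun v _ => sq_nonneg _) (hlam j).le
    positivity
  simp only [h2, Finset.sum_add_distrib] at h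
  linarith

end Pool.Agent.Helper53.BO
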